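import Mathlib

/-!
# MP_247656_co: the proposed stability form of Kruskal–Katona with colex diversity fails

For `s = 1`, `k = 4`, `n = 6`, `n₁ = 7`, `x = y = 3` (all admissible) one has `t = 34`, and the
family of all `5`-subsets of a `7`-set together with the sets `{8} ∪ A`, where `A` runs through the
`4`-subsets of the first six points except two whose complements are disjoint, has `34` members,
colex diversity at least `1 = C(3,3)` and a shadow of size `55 < 57`.
-/

namespace Pool.Agent.Results.MP_247656_co.NotStable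

open Finset

/-- The binomial coefficient `z (z-1) ⋯ (z-m+1) / m!` of a real `z`. -/
noncomputable def gbin (z : ℝ) (m : ℕ) : ℝ := (∏ i ∈ range m, (z - i)) / m.factorial

/-- `C` is the family of the first `m` sets of size `r` in the colex order. -/
def IsFirst (r m : ℕ) (C : Finset (Finset ℕ)) : Prop := Colex.IsInitSeg C r ∧ C.card = m

/-- The image of a family under a permutation of the ground set. -/
def permute (σ : Equiv.Perm ℕ) (C : Finset (Finset ℕ)) : Finset (Finset ℕ) :=
  C.image fun A => A.image σ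

/-- The colex diversity `γ_colex(F,t)` of a family `F` of `r`-sets. -/
noncomputable def diversity (r : ℕ) (F : Finset (Finset ℕ)) (t : ℝ) : ℕ :=
  sInf {d | ∃ (C : Finset (Finset ℕ)) (σ : Equiv.Perm ℕ), IsFirst r ⌈t⌉₊ C ∧
    d = (F \ permute σ C).card}

/-- The number `t` of Q1. -/
noncomputable def tval (s : ℕ) (N : ℕ → ℕ) (n k : ℕ) (x y : ℝ) : ℝ :=
  (∑ i ∈ Icc 1 s, ((N i).choose (k + i) : ℝ)) + (n.choose k : ℝ) - gbin y (n - k) + gbin x (k - 1)

/-- The lower bound for the shadow in Q1. -/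
noncomputable def bound (s : ℕ) (N : ℕ → ℕ) (n k : ℕ) (x y : ℝ) : ℝ :=
  (∑ i ∈ Icc 1 s, ((N i).choose (k + i - 1) : ℝ)) + (n.choose (k - 1) : ℝ)
    - gbin y (n - k + 1) + gbin x (k - 2)

/-- The assertion of Q1 for fixed parameters. -/
def Stable (s : ℕ) (N : ℕ → ℕ) (n k : ℕ) (x y : ℝ) : Prop :=
  ∀ F : Finset (Finset ℕ), (∀ A ∈ F, A.card = k + s) → tval s N n k x y ≤ F.card →
    gbin x (k - 1) ≤ (diversity (k + s) F (tval s N n k x y) : ℝ) →
    bound s N n k x y ≤ ((F.shadow).card : ℝ)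

/-- The parameters are as in Q1: `s > 0`, `n_s > ⋯ > n_1 > n > k > 0`, `k - 1 ≤ x ≤ n - 3` and
`n - k ≤ y ≤ n - 3`. -/
def Admissible (s : ℕ) (N : ℕ → ℕ) (n k : ℕ) (x y : ℝ) : Prop :=
  0 < s ∧ (∀ i, 1 ≤ i → i < s → N i < N (i + 1)) ∧ n < N 1 ∧ k < n ∧ 0 < k ∧
    (k : ℝ) - 1 ≤ x ∧ x ≤ (n : ℝ) - 3 ∧ (n : ℝ) - k ≤ y ∧ y ≤ (n : ℝ) - 3

/-! ### The two families -/

/-- The counterexample (on the ground set `{0, …, 7}`). -/
def F0 : Finset (Finset ℕ) :=
  powersetCard 5 (range 7) ∪
    ((powersetCard 4 (range 6)) \ {{2, 3, 4, 5}, {0, 1, 4, 5}}).image (insert 7)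

/-- The first `34` sets of size `5` in colex order. -/
def C0 : Finset (Finset ℕ) :=
  powersetCard 5 (range 7) ∪
    ((powersetCard 4 (range 6)) \ {{2, 3, 4, 5}, {1, 3, 4, 5}}).image (insert 7)

theorem F0_card : F0.card = 34 := by decide +kernel

theorem F0_shadow : F0.shadow.card = 55 := by decide +kernel

theorem F0_sized : ∀ A ∈ F0, A.card = 5 := by decide +kernel

theorem F0_sub : ∀ A ∈ F0, A ⊆ range 8 := by decide +kernel

theorem C0_card : C0.card = 34 := by decide +kernel

theorem C0_sized : ∀ A ∈ C0, A.card = 5 := by decide +kernel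

theorem C0_sub : ∀ A ∈ C0, A ⊆ range 8 := by decide +kernel

theorem C0_closed : ∀ A ∈ C0, ∀ B ∈ powersetCard 5 (range 8),
    ∑ i ∈ B, 2 ^ i < ∑ i ∈ A, 2 ^ i → B ∈ C0 := by decide +kernel

theorem C0_first : IsFirst 5 34 C0 := by
  refine ⟨⟨fun A hA => C0_sized A (by simpa using hA), ?_⟩, C0_card⟩
  rintro A B hA ⟨hlt, hB⟩
  have hB8 : B ⊆ range 8 := by
    intro b hb
    rw [mem_range]
    exact Colex.forall_lt_mono hlt.le (fun c hc => mem_range.1 (C0_sub A hA hc)) b hb
  refine C0_closed A hA B (mem_powersetCard.2 ⟨hB8, hB⟩) ?_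
  exact (Finset.geomSum_lt_geomSum_iff_toColex_lt_toColex (le_refl 2)).2 hlt

theorem first_unique {C : Finset (Finset ℕ)} (h : IsFirst 5 34 C) : C = C0 := by
  have hc : C.card = C0.card := by rw [h.2, C0_card]
  rcases h.1.total C0_first.1 with h' | h'
  · exact Finset.eq_of_subset_of_card_le h' hc.symm.le
  · exact (Finset.eq_of_subset_of_card_le h' hc.le).symm

theorem deg_F0 (x : ℕ) : (F0.filter (x ∈ ·)).card ≤ 24 := by
  by_cases hx : x < 8
  · have : ∀ x ∈ range 8, (F0.filter (x ∈ ·)).card ≤ 24 := by decide +kernel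
    exact this x (mem_range.2 hx)
  · have : F0.filter (x ∈ ·) = ∅ := by
      refine filter_eq_empty_iff.2 fun A hA hxA => hx ?_
      exact mem_range.1 (F0_sub A hA hxA)
    rw [this]; simp

theorem deg_C0 : (C0.filter (0 ∈ ·)).card = 25 := by decide +kernel

theorem not_sub (σ : Equiv.Perm ℕ) : ¬ F0 ⊆ permute σ C0 := by
  intro h
  have hcard : (permute σ C0).card ≤ F0.card := by
    rw [F0_card, ← C0_card]; exact card_image_le
  have heq : F0 = permute σ C0 := Finset.eq_of_subset_of_card_le h hcard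
  have h1 : ((C0.filter (0 ∈ ·)).image fun A => A.image σ) ⊆ F0.filter (σ 0 ∈ ·) := by
    intro B hB
    obtain ⟨A, hA, rfl⟩ := mem_image.1 hB
    rw [mem_filter] at hA ⊢
    refine ⟨?_, mem_image_of_mem σ hA.2⟩
    rw [heq]
    exact mem_image_of_mem _ hA.1
  have h2 : ((C0.filter (0 ∈ ·)).image fun A => A.image σ).card = 25 := by
    rw [card_image_of_injective _ (Finset.image_injective σ.injective), deg_C0]
  have h3 := card_le_card h1
  have h4 := deg_F0 (σ 0)
  omega

theorem one_le_diversity : 1 ≤ diversity 5 F0 (34 : ℝ) := by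
  have hceil : ⌈(34 : ℝ)⌉₊ = 34 := by
    have : (34 : ℝ) = ((34 : ℕ) : ℝ) := by norm_num
    rw [this, Nat.ceil_natCast]
  unfold diversity
  refine le_csInf ⟨_, C0, 1, by rw [hceil]; exact C0_first, rfl⟩ ?_
  rintro d ⟨C, σ, hC, rfl⟩
  rw [hceil] at hC
  rw [first_unique hC, Nat.one_le_iff_ne_zero, Ne, card_eq_zero, sdiff_eq_empty_iff_subset]
  exact not_sub σ

theorem gbin_3_2 : gbin 3 2 = 3 := by
  norm_num [gbin, prod_range_succ, Nat.factorial]

theorem gbin_3_3 : gbin 3 3 = 1 := by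
  norm_num [gbin, prod_range_succ, Nat.factorial]

theorem tval_eq : tval 1 (fun _ => 7) 6 4 3 3 = 34 := by
  have h1 : Nat.choose 7 5 = 21 := by decide
  have h2 : Nat.choose 6 4 = 15 := by decide
  simp only [tval, Icc_self, sum_singleton]
  norm_num [h1, h2, gbin_3_2, gbin_3_3]

theorem bound_eq : bound 1 (fun _ => 7) 6 4 3 3 = 57 := by
  have h1 : Nat.choose 7 4 = 35 := by decide
  have h2 : Nat.choose 6 3 = 20 := by decide
  simp only [bound, Icc_self, sum_singleton]
  norm_num [h1, h2, gbin_3_2, gbin_3_3]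

/-- **Q1 is false**: the parameters `s = 1`, `n₁ = 7`, `n = 6`, `k = 4`, `x = y = 3` are
admissible and the asserted inequality fails for them. -/
theorem result : ¬ ∀ (s : ℕ) (N : ℕ → ℕ) (n k : ℕ) (x y : ℝ),
    Admissible s N n k x y → Stable s N n k x y := by
  intro h
  have h1 := h 1 (fun _ => 7) 6 4 3 3
    ⟨one_pos, fun i h1 h2 => by omega, by norm_num, by norm_num, by norm_num, by norm_num,
      by norm_num, by norm_num, by norm_num⟩
  have h2 := h1 F0 F0_sized (by rw [tval_eq, F0_card]; norm_num) (by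
    rw [tval_eq, show (4 - 1 : ℕ) = 3 from rfl, gbin_3_3]
    exact_mod_cast one_le_diversity)
  rw [bound_eq, F0_shadow] at h2
  norm_num at h2

end Pool.Agent.Results.MP_247656_co.NotStable
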